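import Pool.Agent.helper41.G5.SpecG

/-!
# Project d2: (MP_5823cb_al), row gMEA: the mean over the digits (helper19)
-/

set_option autoImplicit false

open Filter Topology MeasureTheory

namespace Pool.Agent.helper90.DH

open Pool.Agent.helper64.D2

/-- change of variables for bi-Lipschitz maps. -/
theorem gMEA_cv (B A : ℝ → ℝ) (hB : NL B) (hBm : Measurable B) (hA : Measurable A)
    (hA2 : Integrable (fun x => A x ^ 2) volume) :
    nsq (fun x => A (B x)) ≤ 10 / 9 * nsq A := by
  have hanti : AntilipschitzWith (10 / 9) B := by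
    apply AntilipschitzWith.of_le_mul_dist
    intro x y
    rcases le_total x y with h | h
    · have h1 := (hB x y h).1
      rw [Real.dist_eq, Real.dist_eq, abs_sub_comm x y, abs_sub_comm (B x) (B y), abs_of_nonneg (by linarith : (0 : ℝ) ≤ y - x),
        abs_of_nonneg (by linarith : (0 : ℝ) ≤ B y - B x)]
      push_cast
      linarith
    · have h1 := (hB y x h).1
      rw [Real.dist_eq, Real.dist_eq, abs_of_nonneg (by linarith : (0 : ℝ) ≤ x - y),
        abs_of_nonneg (by linarith : (0 : ℝ) ≤ B x - B y)]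
      push_cast
      linarith
  have hle : Measure.map B volume ≤ (10 / 9 : NNReal) • (volume : Measure ℝ) := by
    rw [Measure.le_iff]
    intro S hS
    rw [Measure.map_apply hBm hS]
    have h1 := hanti.hausdorffMeasure_preimage_le (zero_le_one' ℝ) S
    rw [MeasureTheory.hausdorffMeasure_real, ENNReal.rpow_one] at h1
    exact h1
  have hA2m : Measurable (fun x => A x ^ 2) := hA.pow_const 2
  have hi : Integrable (fun x => A x ^ 2) ((10 / 9 : NNReal) • (volume : Measure ℝ)) :=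
    hA2.smul_measure_nnreal
  calc nsq (fun x => A (B x)) = ∫ y, A y ^ 2 ∂(Measure.map B volume) := by
        unfold nsq
        rw [integral_map hBm.aemeasurable hA2m.aestronglyMeasurable]
    _ ≤ ∫ y, A y ^ 2 ∂((10 / 9 : NNReal) • (volume : Measure ℝ)) :=
        integral_mono_measure hle (Eventually.of_forall fun y => sq_nonneg (A y)) hi
    _ = 10 / 9 * nsq A := by
        rw [integral_smul_nnreal_measure]
        unfold nsq
        rw [NNReal.smul_def, smul_eq_mul]
        push_cast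
        rfl

theorem gMEA_NL (hNIB : gNIB_stmt) (P : DD) (hP : Sz P (1 / 1000)) (c : ℝ) : NL (fun y => ev P (y + c)) := by
  intro x y hxy
  have h := (hNIB P (1 / 1000) (by norm_num) hP).2.2 (y + c) (x + c)
  have h1 : (y + c) - (x + c) = y - x := by ring
  rw [h1, abs_of_nonneg (by linarith : (0 : ℝ) ≤ y - x), abs_le] at h
  constructor
  · show 9 / 10 * (y - x) ≤ ev P (y + c) - ev P (x + c)
    linarith [h.1]
  · show ev P (y + c) - ev P (x + c) ≤ 11 / 10 * (y - x)
    linarith [h.2]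

/-- the continuous average is in `L^2`. -/
theorem gMEA_avg (hNIB : gNIB_stmt) (hFNC : gFNC_stmt) (s : ℕ) (τ : ℝ) (P : DD) (f : ℝ → ℝ) (hτ : 0 < τ)
    (hP : Sz P (1 / 1000)) (hf : PA (s + 1) f) (hS : Su f) :
    MemLp (fun y => (1 / τ) * ∫ v in (0 : ℝ)..τ, f (ev P (y + v))) 2 volume := by
  have hNL : NL (fun y => ev P y) := by
    have h := gMEA_NL hNIB P hP 0
    simpa using h
  obtain ⟨hfm, hPm, ⟨M, hM⟩, -, -, hmem, -⟩ := hFNC (s + 1) f (fun y => ev P y) hf hS hNL
  have hgm : Measurable (fun z => f (ev P z)) := hfm.comp hPm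
  have hint : ∀ a b : ℝ, IntervalIntegrable (fun z => f (ev P z)) volume a b := by
    intro a b
    have h1 : IntervalIntegrable (fun _ : ℝ => M) volume a b := intervalIntegrable_const
    refine h1.mono_fun hgm.aestronglyMeasurable ?_
    filter_upwards with z
    rw [Real.norm_eq_abs, Real.norm_eq_abs]
    exact (hM _).trans (le_abs_self M)
  have heq : (fun y => (1 / τ) * ∫ v in (0 : ℝ)..τ, f (ev P (y + v)))
      = fun y => (1 / τ) * ((∫ z in (0 : ℝ)..(y + τ), f (ev P z)) - ∫ z in (0 : ℝ)..y, f (ev P z)) := by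
    funext y
    rw [intervalIntegral.integral_comp_add_left (fun z => f (ev P z)) y, add_zero,
      intervalIntegral.integral_interval_sub_left (hint 0 (y + τ)) (hint 0 y)]
  have hcp : Continuous (fun b : ℝ => ∫ z in (0 : ℝ)..b, f (ev P z)) :=
    intervalIntegral.continuous_primitive hint 0
  have hcont : Continuous (fun y => (1 / τ) * ∫ v in (0 : ℝ)..τ, f (ev P (y + v))) := by
    rw [heq]
    exact continuous_const.mul ((hcp.comp (continuous_id.add continuous_const)).sub hcp)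
  have hzero : ∀ z : ℝ, z ∉ Set.Ioo (0 : ℝ) 1 → f (ev P z) = 0 := by
    intro z hz
    rw [ev_out P z hz]
    apply hS
    intro hz2
    apply hz
    constructor
    · linarith [hz2.1]
    · linarith [hz2.2]
  apply hcont.memLp_of_hasCompactSupport
  apply HasCompactSupport.of_support_subset_isCompact (K := Set.Icc (-τ) 1) isCompact_Icc
  intro y hy
  by_contra hyn
  apply hy
  rw [Set.mem_Icc, not_and_or, not_le, not_le] at hyn
  have h0 : ∫ v in (0 : ℝ)..τ, f (ev P (y + v)) = 0 := by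
    apply intervalIntegral.integral_zero_ae
    filter_upwards with v hv
    rw [Set.uIoc_of_le hτ.le, Set.mem_Ioc] at hv
    apply hzero
    intro h1
    rcases hyn with h | h
    · linarith [h1.1, hv.2]
    · linarith [h1.2, hv.1]
  show (1 / τ) * ∫ v in (0 : ℝ)..τ, f (ev P (y + v)) = 0
  rw [h0, mul_zero]

theorem gMEA (hPRI : gPRI_stmt) (hRIE : gRIE_stmt) (hNIB : gNIB_stmt) (hFNC : gFNC_stmt) : gMEA_stmt := by
  obtain ⟨K₁, hK₁, H1⟩ := hPRI
  obtain ⟨K₂, hK₂, H2⟩ := hRIE
  refine ⟨3 * (K₁ + K₂), by linarith, ?_⟩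
  intro s N τ P B f hN hτ hτ1 hNτ hP hB hf
  have hNpos : (0 : ℝ) < N := by exact_mod_cast hN
  have hBm : Measurable B := (hFNC (s + 1) f B hf.1 hf.2.1 hB).2.1
  -- the Riemann sum
  set A : ℝ → ℝ := fun y => (∑ o ∈ Finset.range N, f (ev P (y + τ * ((o : ℝ) / N)))) / N with hA
  set Cc : ℝ → ℝ := fun y => (1 / τ) * ∫ v in (0 : ℝ)..τ, f (ev P (y + v)) with hCc
  have hterm : ∀ o : ℕ, Measurable (fun y => f (ev P (y + τ * ((o : ℝ) / N)))) ∧
      MemLp (fun y => f (ev P (y + τ * ((o : ℝ) / N)))) 2 volume := by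
    intro o
    obtain ⟨hfm, hCm, -, -, -, hmem, -⟩ := hFNC (s + 1) f (fun y => ev P (y + τ * ((o : ℝ) / N))) hf.1 hf.2.1
      (gMEA_NL hNIB P hP _)
    exact ⟨hfm.comp hCm, hmem⟩
  have hAm : Measurable A := by
    apply Measurable.div_const
    exact Finset.measurable_sum _ (fun o _ => (hterm o).1)
  have hAL : MemLp A 2 volume := by
    have h1 : MemLp (fun y => ∑ o ∈ Finset.range N, f (ev P (y + τ * ((o : ℝ) / N)))) 2 volume :=
      memLp_finset_sum _ (fun o _ => (hterm o).2)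
    have h2 := h1.const_mul ((N : ℝ)⁻¹)
    have h3 : (fun y => (N : ℝ)⁻¹ * ∑ o ∈ Finset.range N, f (ev P (y + τ * ((o : ℝ) / N)))) = A := by
      funext y
      rw [hA]
      show (N : ℝ)⁻¹ * _ = _ / (N : ℝ)
      rw [div_eq_inv_mul]
    rw [← h3]
    exact h2
  have hCL : MemLp Cc 2 volume := gMEA_avg hNIB hFNC s τ P f hτ hP hf.1 hf.2.1
  have hDL : MemLp (fun y => A y - Cc y) 2 volume := hAL.sub hCL
  have hA2 : Integrable (fun y => A y ^ 2) volume := hAL.integrable_sq
  have hC2 : Integrable (fun y => Cc y ^ 2) volume := hCL.integrable_sq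
  have hD2 : Integrable (fun y => (A y - Cc y) ^ 2) volume := hDL.integrable_sq
  have hsum : nsq A ≤ 2 * nsq (fun y => A y - Cc y) + 2 * nsq Cc := by
    unfold nsq
    rw [← integral_const_mul, ← integral_const_mul, ← integral_add (hD2.const_mul 2) (hC2.const_mul 2)]
    apply integral_mono hA2 ((hD2.const_mul 2).add (hC2.const_mul 2))
    intro y
    show A y ^ 2 ≤ 2 * (A y - Cc y) ^ 2 + 2 * Cc y ^ 2
    nlinarith [sq_nonneg (A y - 2 * Cc y)]
  have hn0 : 0 ≤ nsq f := by
    unfold nsq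
    exact integral_nonneg fun x => sq_nonneg _
  have h1 : nsq Cc ≤ K₁ / (2 ^ s * τ) ^ 2 * nsq f := H1 s τ P f hτ hτ1 hP hf
  have h2 : nsq (fun y => A y - Cc y) ≤ K₂ * (2 ^ s * τ / N) * nsq f :=
    H2 s N τ P f hN hτ hτ1 hNτ hP hf.1 hf.2.1
  have h3 : nsq (fun x => A (B x)) ≤ 10 / 9 * nsq A := gMEA_cv B A hB hBm hAm hA2
  have hu : 0 ≤ 1 / (2 ^ s * τ) ^ 2 * nsq f := by positivity
  have hv : 0 ≤ 2 ^ s * τ / N * nsq f := by positivity
  calc nsq (fun x => (∑ o ∈ Finset.range N, f (ev P (B x + τ * ((o : ℝ) / N)))) / N)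
      = nsq (fun x => A (B x)) := rfl
    _ ≤ 10 / 9 * nsq A := h3
    _ ≤ 10 / 9 * (2 * (K₂ * (2 ^ s * τ / N) * nsq f) + 2 * (K₁ / (2 ^ s * τ) ^ 2 * nsq f)) := by linarith
    _ = 20 / 9 * K₂ * (2 ^ s * τ / N * nsq f) + 20 / 9 * K₁ * (1 / (2 ^ s * τ) ^ 2 * nsq f) := by ring
    _ ≤ 3 * (K₁ + K₂) * (2 ^ s * τ / N * nsq f) + 3 * (K₁ + K₂) * (1 / (2 ^ s * τ) ^ 2 * nsq f) := by
        apply add_le_add
        · apply mul_le_mul_of_nonneg_right _ hv
          linarith
        · apply mul_le_mul_of_nonneg_right _ hu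
          linarith
    _ = 3 * (K₁ + K₂) * (1 / (2 ^ s * τ) ^ 2 + 2 ^ s * τ / N) * nsq f := by ring

end Pool.Agent.helper90.DH
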